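import Pool.Agent.Helper98.DISC.GoalsB

/-!
# Project DISC, packet ANU
-/

open MeasureTheory Set Filter Topology

noncomputable section

namespace Pool.Agent.Helper49.DISC

open Pool.Agent.Helper98.DISC

theorem Cc_cont (ρ : ℝ) (f : ℂ → ℂ) : Continuous (Cc ρ f) := by
  unfold Cc
  refine continuous_const.mul ?_
  by_cases hf : CircleIntegrable f 0 ρ
  · rw [continuous_iff_continuousAt]
    intro φ0
    unfold circleIntegral
    have hF : IntervalIntegrable (fun θ => f (circleMap 0 ρ θ)) volume 0 (2 * Real.pi) := hf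
    refine intervalIntegral.continuousAt_of_dominated_interval
      (bound := fun θ => |ρ| * (‖f (circleMap 0 ρ θ)‖ * Real.exp (2 * |ρ| * (|φ0| + 1)))) ?_ ?_ ?_ ?_
    · refine Filter.Eventually.of_forall fun φ => ?_
      have h1 : IntervalIntegrable (fun θ => deriv (circleMap 0 ρ) θ • (f (circleMap 0 ρ θ) *
          Complex.exp (2 * Complex.I * circleMap 0 ρ θ * φ))) volume 0 (2 * Real.pi) := by
        have h2 : ContinuousOn (fun θ => Complex.exp (2 * Complex.I * circleMap 0 ρ θ * φ))
            (uIcc 0 (2 * Real.pi)) := by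
          have := continuous_circleMap (0 : ℂ) ρ
          fun_prop
        have h3 : ContinuousOn (deriv (circleMap 0 ρ)) (uIcc 0 (2 * Real.pi)) := by
          have : deriv (circleMap 0 ρ) = fun θ => circleMap 0 ρ θ * Complex.I := by
            funext θ
            exact deriv_circleMap 0 ρ θ
          rw [this]
          have := continuous_circleMap (0 : ℂ) ρ
          fun_prop
        exact (hF.mul_continuousOn h2).continuousOn_smul h3
      exact (intervalIntegrable_iff.1 h1).aestronglyMeasurable
    · have h1 : ∀ᶠ φ in 𝓝 φ0, |φ| < |φ0| + 1 := by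
        have : Tendsto (fun φ : ℝ => |φ|) (𝓝 φ0) (𝓝 |φ0|) := continuous_abs.continuousAt
        exact this.eventually_lt_const (by linarith)
      filter_upwards [h1] with φ hφ
      refine Filter.Eventually.of_forall fun θ _ => ?_
      rw [norm_smul, norm_mul, deriv_circleMap, norm_mul, Complex.norm_I, mul_one]
      have h2 : ‖circleMap 0 ρ θ‖ = |ρ| := by simp
      rw [h2]
      refine mul_le_mul_of_nonneg_left ?_ (abs_nonneg _)
      refine mul_le_mul_of_nonneg_left ?_ (norm_nonneg _)
      rw [Complex.norm_exp, Real.exp_le_exp]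
      refine (Complex.re_le_norm _).trans ?_
      rw [norm_mul, norm_mul, norm_mul, h2]
      simp only [Complex.norm_I, Complex.norm_ofNat, Complex.norm_real, Real.norm_eq_abs, mul_one]
      exact mul_le_mul_of_nonneg_left hφ.le (by positivity)
    · exact (hF.norm.mul_const _).const_mul _
    · refine Filter.Eventually.of_forall fun θ _ => ?_
      fun_prop
  · have h0 : ∀ φ : ℝ, (∮ z in C(0, ρ), f z * Complex.exp (2 * Complex.I * z * φ)) = 0 := by
      intro φ
      apply circleIntegral.integral_undef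
      intro h
      apply hf
      have h2 : ContinuousOn (fun θ => Complex.exp (-(2 * Complex.I * circleMap 0 ρ θ * φ)))
          (uIcc 0 (2 * Real.pi)) := by
        have := continuous_circleMap (0 : ℂ) ρ
        fun_prop
      have h3 := IntervalIntegrable.mul_continuousOn h h2
      have h4 : (fun θ => f (circleMap 0 ρ θ) * Complex.exp (2 * Complex.I * circleMap 0 ρ θ * φ)
          * Complex.exp (-(2 * Complex.I * circleMap 0 ρ θ * φ))) = fun θ => f (circleMap 0 ρ θ) := by
        funext θ
        rw [mul_assoc, ← Complex.exp_add, add_neg_cancel, Complex.exp_zero, mul_one]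
      have h5 : IntervalIntegrable (fun θ => f (circleMap 0 ρ θ)) volume 0 (2 * Real.pi) := by
        rw [← h4]
        exact h3
      exact h5
    simp only [h0]
    exact continuous_const

theorem Fm_cont (m : ℕ) : Continuous (Fm m) := by
  unfold Fm
  exact continuous_const.mul (Cc_cont _ _)

theorem hm_eq (m : ℕ) (φ : ℝ) : hm m φ = (4⁻¹ : ℝ) ^ m * (Real.sin φ * (Fm m φ).re) := by
  unfold hm fm
  by_cases h : Real.sin φ = 0
  · rw [h]
    simp
  · have h2 : (2 * Real.sin φ) ^ (2 * m) = 4 ^ m * Real.sin φ ^ (2 * m) := by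
      rw [mul_pow, pow_mul]
      norm_num
    rw [h2, pow_succ, inv_pow]
    field_simp

theorem hm_cont (m : ℕ) : Continuous (hm m) := by
  have : hm m = fun φ => (4⁻¹ : ℝ) ^ m * (Real.sin φ * (Fm m φ).re) := funext (hm_eq m)
  rw [this]
  exact continuous_const.mul (Real.continuous_sin.mul (Complex.continuous_re.comp (Fm_cont m)))

theorem anu (hFN : S_FN) : S_ANU := by
  obtain ⟨hre, -, -, -, hlast⟩ := hFN
  intro n hn
  have hfm : ∀ m, ∀ φ ∈ Ioo (0 : ℝ) Real.pi, 0 ≤ fm m φ := by
    intro m φ hφ
    unfold fm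
    have h1 := (hre m φ hφ).2
    have h2 : 0 ≤ (2 * Real.sin φ) ^ (2 * m) := by
      rw [pow_mul]
      positivity
    exact div_nonneg h1 h2
  have hsin : ∀ φ ∈ Ioo (0 : ℝ) Real.pi, 0 < Real.sin φ := fun φ hφ => Real.sin_pos_of_mem_Ioo hφ
  have hsym : ∀ φ ∈ Ioo (0 : ℝ) Real.pi, Real.pi - φ ∈ Ioo (0 : ℝ) Real.pi := by
    intro φ hφ
    exact ⟨by linarith [hφ.2], by linarith [hφ.1]⟩
  have hhm : ∀ m, ∀ φ ∈ Ioo (0 : ℝ) Real.pi, 0 ≤ hm m φ := by
    intro m φ hφ
    unfold hm
    exact mul_nonneg (pow_nonneg (hsin φ hφ).le _) (hfm m φ hφ)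
  have hn0 : (0 : ℝ) < n := by exact_mod_cast hn
  -- one summand
  have key : ∀ x ∈ Finset.HasAntidiagonal.antidiagonal (n - 1),
      ∫⁻ α in Ioo (0 : ℝ) Real.pi, ∫⁻ d in Ioo (0 : ℝ) (2 * Real.sin α),
        ENNReal.ofReal (d ^ (2 * x.1) * fm x.1 α) *
          ENNReal.ofReal (d ^ (2 * x.2) * fm x.2 (Real.pi - α)) * ENNReal.ofReal d
      = ENNReal.ofReal (4 ^ n / (2 * n) *
        ∫ τ in (0 : ℝ)..Real.pi, hm x.1 (Real.pi - τ) * hm x.2 τ) := by
    intro x hx
    have hpq : x.1 + x.2 = n - 1 := Finset.HasAntidiagonal.mem_antidiagonal.1 hx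
    have h1 : ∀ α ∈ Ioo (0 : ℝ) Real.pi, ∫⁻ d in Ioo (0 : ℝ) (2 * Real.sin α),
        ENNReal.ofReal (d ^ (2 * x.1) * fm x.1 α) *
          ENNReal.ofReal (d ^ (2 * x.2) * fm x.2 (Real.pi - α)) * ENNReal.ofReal d
        = ENNReal.ofReal (4 ^ n / (2 * n) * (hm x.1 α * hm x.2 (Real.pi - α))) := by
      intro α hα
      have hs := hsin α hα
      have hf1 := hfm x.1 α hα
      have hf2 := hfm x.2 (Real.pi - α) (hsym α hα)
      have h2 : ∀ d ∈ Ioo (0 : ℝ) (2 * Real.sin α),
          ENNReal.ofReal (d ^ (2 * x.1) * fm x.1 α) *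
          ENNReal.ofReal (d ^ (2 * x.2) * fm x.2 (Real.pi - α)) * ENNReal.ofReal d
          = ENNReal.ofReal (d ^ (2 * n - 1) * (fm x.1 α * fm x.2 (Real.pi - α))) := by
        intro d hd
        have hd0 : 0 < d := hd.1
        rw [← ENNReal.ofReal_mul (by positivity), ← ENNReal.ofReal_mul (by positivity)]
        congr 1
        have h3 : d ^ (2 * n - 1) = d ^ (2 * x.1) * d ^ (2 * x.2) * d := by
          rw [← pow_add, ← pow_succ]
          congr 1
          omega
        rw [h3]
        ring
      rw [setLIntegral_congr_fun measurableSet_Ioo h2]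
      have h4 : IntervalIntegrable (fun d : ℝ => d ^ (2 * n - 1) * (fm x.1 α * fm x.2 (Real.pi - α)))
          volume 0 (2 * Real.sin α) := by
        apply Continuous.intervalIntegrable
        fun_prop
      have h5 : IntegrableOn (fun d : ℝ => d ^ (2 * n - 1) * (fm x.1 α * fm x.2 (Real.pi - α)))
          (Ioo (0 : ℝ) (2 * Real.sin α)) volume := by
        rw [intervalIntegrable_iff_integrableOn_Ioo_of_le (by linarith)] at h4
        exact h4
      rw [← ofReal_integral_eq_lintegral_ofReal h5]
      · congr 1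
        rw [← integral_Ioc_eq_integral_Ioo, ← intervalIntegral.integral_of_le (by linarith),
          intervalIntegral.integral_mul_const, integral_pow]
        have h6 : 2 * n - 1 + 1 = 2 * n := by omega
        have h7 : ((2 * n - 1 : ℕ) : ℝ) + 1 = 2 * n := by
          have : ((2 * n - 1 + 1 : ℕ) : ℝ) = ((2 * n : ℕ) : ℝ) := by rw [h6]
          push_cast at this
          linarith
        rw [h6, h7]
        unfold hm
        rw [Real.sin_pi_sub, zero_pow (by omega), sub_zero]
        have h8 : (2 * Real.sin α) ^ (2 * n) = 4 ^ n * (Real.sin α ^ (2 * x.1 + 1)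
            * Real.sin α ^ (2 * x.2 + 1)) := by
          rw [← pow_add, mul_pow]
          have h9 : 2 * x.1 + 1 + (2 * x.2 + 1) = 2 * n := by omega
          rw [h9, pow_mul]
          norm_num
        rw [h8]
        ring
      · rw [EventuallyLE, ae_restrict_iff' measurableSet_Ioo]
        refine Filter.Eventually.of_forall fun d hd => ?_
        have hd0 : 0 < d := hd.1
        simp only [Pi.zero_apply]
        positivity
    rw [setLIntegral_congr_fun measurableSet_Ioo h1]
    have hc1 : Continuous fun α => hm x.1 α * hm x.2 (Real.pi - α) :=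
      (hm_cont x.1).mul ((hm_cont x.2).comp (continuous_const.sub continuous_id))
    have h4 : IntervalIntegrable (fun α => 4 ^ n / (2 * n) * (hm x.1 α * hm x.2 (Real.pi - α)))
        volume 0 Real.pi := (continuous_const.mul hc1).intervalIntegrable _ _
    have h5 : IntegrableOn (fun α => 4 ^ n / (2 * n) * (hm x.1 α * hm x.2 (Real.pi - α)))
        (Ioo (0 : ℝ) Real.pi) volume := by
      rw [intervalIntegrable_iff_integrableOn_Ioo_of_le Real.pi_pos.le] at h4
      exact h4
    rw [← ofReal_integral_eq_lintegral_ofReal h5]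
    · congr 1
      rw [← integral_Ioc_eq_integral_Ioo, ← intervalIntegral.integral_of_le Real.pi_pos.le,
        intervalIntegral.integral_const_mul]
      congr 1
      have h6 := intervalIntegral.integral_comp_sub_left (a := 0) (b := Real.pi)
        (fun α => hm x.1 α * hm x.2 (Real.pi - α)) Real.pi
      rw [sub_self, sub_zero] at h6
      rw [← h6]
      refine intervalIntegral.integral_congr fun τ _ => ?_
      simp only [sub_sub_cancel]
    · rw [EventuallyLE, ae_restrict_iff' measurableSet_Ioo]
      refine Filter.Eventually.of_forall fun α hα => ?_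
      have := hhm x.1 α hα
      have := hhm x.2 (Real.pi - α) (hsym α hα)
      simp only [Pi.zero_apply]
      positivity
  rw [Finset.sum_congr rfl key, ← ENNReal.ofReal_sum_of_nonneg, hlast n hn, Finset.mul_sum]
  intro x _
  have h1 : 0 ≤ ∫ τ in (0 : ℝ)..Real.pi, hm x.1 (Real.pi - τ) * hm x.2 τ := by
    rw [intervalIntegral.integral_of_le Real.pi_pos.le, integral_Ioc_eq_integral_Ioo]
    refine setIntegral_nonneg measurableSet_Ioo fun τ hτ => ?_
    exact mul_nonneg (hhm _ _ (hsym τ hτ)) (hhm _ _ hτ)
  positivity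

end Pool.Agent.Helper49.DISC
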