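import Pool.Agent.Helper98.DISC.GoalsC

/-!
# Project DISC, packet CNJ
-/

open MeasureTheory Set Filter Topology

noncomputable section

namespace Pool.Agent.Helper49.DISC

open Pool.Agent.Helper98.DISC

theorem edge_conj {n : ℕ} [NeZero n] (x : Fin n → ℂ) (i : Fin n) :
    edge (fun i => (starRingEnd ℂ) (x i)) i = Complex.conjLIE '' edge x i := by
  unfold edge
  have h := image_segment ℝ (Complex.conjLIE.toLinearEquiv : ℂ →ₗ[ℝ] ℂ).toAffineMap (x i) (x (i + 1))
  exact h.symm

theorem conv_conj {n : ℕ} [NeZero n] (x : Fin n → ℂ) (h : IsConvexPolygon x) :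
    IsConvexPolygon (fun i => (starRingEnd ℂ) (x i)) := by
  obtain ⟨⟨h1, h2⟩, K, hK1, hK2, hK3, hK4, hK5⟩ := h
  have hinj : Function.Injective (Complex.conjLIE : ℂ → ℂ) := Complex.conjLIE.injective
  refine ⟨⟨fun i => ?_, fun i j hij hji hij' => ?_⟩, Complex.conjLIE '' K, ?_, hK2.image _, ?_, ?_, ?_⟩
  · rw [edge_conj, edge_conj, ← image_inter hinj, h1 i, image_singleton]
    rfl
  · rw [edge_conj, edge_conj, disjoint_image_iff hinj]
    exact h2 i j hij hji hij'
  · exact Complex.conjLIE.toHomeomorph.isOpenMap K hK1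
  · exact Complex.conjLIE.lipschitz.isBounded_image hK3
  · exact hK4.linear_image (Complex.conjLIE.toLinearEquiv : ℂ →ₗ[ℝ] ℂ)
  · have h3 := Complex.conjLIE.toHomeomorph.image_frontier K
    have h4 : frontier (Complex.conjLIE '' K) = Complex.conjLIE '' frontier K := h3.symm
    rw [h4, hK5, image_iUnion]
    simp only [edge_conj]

theorem cnj : S_CNJ := by
  refine ⟨fun n _ x => ⟨fun h => ?_, conv_conj x⟩, fun a b c => ?_⟩
  · have h1 := conv_conj _ h
    simp only [Complex.conj_conj] at h1
    exact h1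
  · unfold cr
    simp only [Complex.conj_re, Complex.conj_im]
    ring

end Pool.Agent.Helper49.DISC
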