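import Pool.Agent.Helper98.DISC.GoalsE

/-!
# Project DISC, packet PFY
-/

open MeasureTheory Set Filter Topology

noncomputable section

namespace Pool.Agent.Helper49.DISC

open Pool.Agent.Helper98.DISC

theorem pfr_congr {K k : ℕ} {f g : ℂ → ℂ} (h : ∀ z, f z = g z) (hf : PFr K k f) : PFr K k g := by
  have : f = g := funext h
  rwa [← this]

theorem pfr_zero (K k : ℕ) : PFr K k (fun _ => 0) := by
  refine ⟨fun _ _ => 0, fun z _ => ?_⟩
  simp

theorem pfr_sum (hP : S_PFM) (K k : ℕ) {ι : Type*} (s : Finset ι) (f : ι → ℂ → ℂ)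
    (h : ∀ i ∈ s, PFr K k (f i)) : PFr K k (fun z => ∑ i ∈ s, f i z) := by
  classical
  induction s using Finset.induction_on with
  | empty =>
    simp only [Finset.sum_empty]
    exact pfr_zero K k
  | insert a s ha ih =>
    simp only [Finset.sum_insert ha]
    have h1 := hP.1 K k k (f a) (fun z => ∑ i ∈ s, f i z) (h a (Finset.mem_insert_self a s))
      (ih fun i hi => h i (Finset.mem_insert_of_mem hi))
    rwa [max_self] at h1

/-- products, with the empty product -/
def PQ (K k : ℕ) (f : ℂ → ℂ) : Prop := (k = 0 ∧ ∀ z, f z = 1) ∨ PFr K k f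

theorem pq_mul (hP : S_PFM) {K j k : ℕ} {f g : ℂ → ℂ} (hf : PQ K j f) (hg : PQ K k g) :
    PQ K (j + k) (fun z => f z * g z) := by
  rcases hf with ⟨rfl, hf⟩ | hf
  · rw [zero_add]
    simp only [hf, one_mul]
    exact hg
  · rcases hg with ⟨rfl, hg⟩ | hg
    · simp only [hg, mul_one, add_zero]
      exact Or.inr hf
    · exact Or.inr (hP.2.2.1 K j k f g hf hg)

theorem pq_prod (hP : S_PFM) (K : ℕ) {ι : Type*} (s : Finset ι) (k : ι → ℕ) (f : ι → ℂ → ℂ)
    (h : ∀ i ∈ s, PQ K (k i) (f i)) : PQ K (∑ i ∈ s, k i) (fun z => ∏ i ∈ s, f i z) := by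
  classical
  induction s using Finset.induction_on with
  | empty =>
    left
    simp
  | insert a s ha ih =>
    simp only [Finset.sum_insert ha, Finset.prod_insert ha]
    exact pq_mul hP (h a (Finset.mem_insert_self a s))
      (ih fun i hi => h i (Finset.mem_insert_of_mem hi))

theorem dl_rat {k : ℕ} (lam : Fin k → Fin (k + 1)) : ∃ q : ℚ, dl lam = (q : ℂ) := by
  refine ⟨(∏ i, ∏ j ∈ Finset.Ioi i, ((ell lam i : ℚ) - ell lam j)) /
    ∏ i, ((ell lam i).factorial : ℚ), ?_⟩
  unfold dl
  push_cast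
  rfl

theorem sk_pfr (hP : S_PFM) {K j : ℕ} (hj : 1 ≤ j) (hjK : j ≤ K + 1) : PFr K j (sk j) := by
  unfold sk
  refine pfr_sum hP K j (prt j) (fun lam z => dl lam ^ 2 * ∏ i, ∏ l ∈ Finset.range (lam i),
    (z + l - i)⁻¹) ?_
  intro lam hlam
  rw [prt, Finset.mem_filter] at hlam
  obtain ⟨-, -, hsum⟩ := hlam
  obtain ⟨q, hq⟩ := dl_rat lam
  have h1 : PQ K (∑ i, (lam i : ℕ)) (fun z => ∏ i, ∏ l ∈ Finset.range (lam i), (z + l - i)⁻¹) := by
    refine pq_prod hP K Finset.univ (fun i => (lam i : ℕ))
      (fun i z => ∏ l ∈ Finset.range (lam i), (z + l - i)⁻¹) fun i _ => ?_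
    have h2 : PQ K (∑ l ∈ Finset.range (lam i), 1)
        (fun z => ∏ l ∈ Finset.range (lam i), (z + l - i)⁻¹) := by
      refine pq_prod hP K (Finset.range (lam i)) (fun _ => 1) (fun l z => (z + l - i)⁻¹)
        fun l hl => ?_
      right
      have hl' := Finset.mem_range.1 hl
      have hlam := (lam i).2
      have hi := i.2
      have hc : |(l : ℤ) - (i : ℕ)| ≤ K := by
        rw [abs_le]
        constructor <;> omega
      have h3 := hP.2.2.2.1 K ((l : ℤ) - (i : ℕ)) hc
      refine pfr_congr (fun z => ?_) h3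
      push_cast
      ring
    rw [Finset.sum_const, Finset.card_range, smul_eq_mul, mul_one] at h2
    exact h2
  rw [hsum] at h1
  rcases h1 with ⟨h1, -⟩ | h1
  · omega
  · have h4 := hP.2.1 K j (q ^ 2) _ h1
    refine pfr_congr (fun z => ?_) h4
    rw [hq]
    push_cast
    ring

theorem sk_zero (z : ℂ) : sk 0 z = 1 := by
  have h1 : prt 0 = {fun i => i.elim0} := by
    ext lam
    simp only [prt, Finset.mem_filter, Finset.mem_univ, true_and, Finset.mem_singleton]
    constructor
    · intro _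
      funext i
      exact i.elim0
    · intro _
      refine ⟨fun i => i.elim0, ?_⟩
      simp
  unfold sk
  rw [h1, Finset.sum_singleton]
  unfold dl
  simp

theorem yz_mul (z : ℂ) : yz z * Sz z = th (Sz z) := by
  unfold yz
  rw [mul_assoc, PowerSeries.inv_mul_cancel, mul_one]
  have h : PowerSeries.constantCoeff (Sz z) = sk 0 z := by
    rw [← PowerSeries.coeff_zero_eq_constantCoeff_apply]
    unfold Sz
    rw [PowerSeries.coeff_mk]
  rw [h, sk_zero]
  exact one_ne_zero

theorem coeff_th (z : ℂ) (k : ℕ) : PowerSeries.coeff k (th (Sz z)) = k * sk k z := by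
  unfold th
  rcases k with _ | k
  · rw [PowerSeries.coeff_zero_X_mul]
    simp
  · rw [PowerSeries.coeff_succ_X_mul, PowerSeries.coeff_derivative]
    unfold Sz
    rw [PowerSeries.coeff_mk]
    push_cast
    ring

theorem yk_rec (k : ℕ) (z : ℂ) :
    yk k z = k * sk k z - ∑ i ∈ Finset.range k, yk i z * sk (k - i) z := by
  have h1 := congrArg (PowerSeries.coeff k) (yz_mul z)
  rw [PowerSeries.coeff_mul, coeff_th] at h1
  have h2 := Finset.Nat.sum_antidiagonal_eq_sum_range_succ
    (fun i j => PowerSeries.coeff i (yz z) * PowerSeries.coeff j (Sz z)) k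
  rw [h2, Finset.sum_range_succ] at h1
  have h3 : ∀ j, PowerSeries.coeff j (Sz z) = sk j z := fun j => by
    unfold Sz
    rw [PowerSeries.coeff_mk]
  simp only [h3, Nat.sub_self, sk_zero, mul_one] at h1
  unfold yk
  linear_combination h1

theorem yk_zero (z : ℂ) : yk 0 z = 0 := by
  rw [yk_rec]
  simp

theorem pfy (hP : S_PFM) : S_PFY := by
  have key : ∀ K k : ℕ, 1 ≤ k → k ≤ K + 1 → PFr K k (yk k) := by
    intro K k
    induction k using Nat.strong_induction_on with
    | _ k ih =>
      intro hk hkK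
      have h1 : PFr K k (fun z => ((k : ℚ) : ℂ) * sk k z) :=
        hP.2.1 K k (k : ℚ) (sk k) (sk_pfr hP hk hkK)
      have h2 : PFr K k (fun z => ∑ i ∈ Finset.range k, yk i z * sk (k - i) z) := by
        refine pfr_sum hP K k (Finset.range k) (fun i z => yk i z * sk (k - i) z) fun i hi => ?_
        have hi' := Finset.mem_range.1 hi
        rcases Nat.eq_zero_or_pos i with rfl | hi0
        · refine pfr_congr (fun z => ?_) (pfr_zero K k)
          rw [yk_zero, zero_mul]
        · have h3 := hP.2.2.1 K i (k - i) (yk i) (sk (k - i)) (ih i hi' hi0 (by omega))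
            (sk_pfr hP (by omega) (by omega))
          have h4 : i + (k - i) = k := by omega
          rwa [h4] at h3
      have h5 := hP.2.1 K k (-1) _ h2
      have h6 := hP.1 K k k _ _ h1 h5
      rw [max_self] at h6
      refine pfr_congr (fun z => ?_) h6
      rw [yk_rec k z]
      push_cast
      ring
  intro n hn
  exact key (n - 1) n hn (by omega)

end Pool.Agent.Helper49.DISC
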