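import Pool.Agent.Helper98.DISC.GoalsD

/-!
# Project DISC, packet UN1
-/

open MeasureTheory Set Filter Topology
open scoped ENNReal

noncomputable section

namespace Pool.Agent.Helper49.DISC

open Pool.Agent.Helper98.DISC

theorem dlt_swap (a b w z : ℂ) : dlt a b w z = - dlt a b z w := by
  unfold dlt
  simp only [Complex.mul_im, Complex.mul_re, Complex.sub_re, Complex.sub_im, map_mul, map_sub,
    Complex.conj_re, Complex.conj_im]
  ring

theorem cr_cont {X : Type*} [TopologicalSpace X] {f g h : X → ℂ} (hf : Continuous f)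
    (hg : Continuous g) (hh : Continuous h) : Continuous fun x => cr (f x) (g x) (h x) := by
  unfold cr
  fun_prop

theorem dq_cont {X : Type*} [TopologicalSpace X] (a b : ℂ) (φ : ℝ) {f : X → ℂ} (hf : Continuous f) :
    Continuous fun x => dq a b φ (f x) := by
  unfold dq
  refine Complex.continuous_im.comp ?_
  refine ((hf.sub continuous_const).mul ?_).mul continuous_const
  exact Complex.continuous_conj.comp (continuous_const.sub hf)

theorem dlt_cont {X : Type*} [TopologicalSpace X] (a b : ℂ) {f g : X → ℂ} (hf : Continuous f)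
    (hg : Continuous g) : Continuous fun x => dlt a b (f x) (g x) := by
  unfold dlt
  refine Complex.continuous_im.comp ?_
  refine ((hg.sub continuous_const).mul (continuous_const.sub hf)).mul ?_
  exact Complex.continuous_conj.comp ((continuous_const.sub hg).mul (hf.sub continuous_const))

theorem meas_ES (ι : Type) [Fintype ι] [LinearOrder ι] (a b : ℂ) (φ : ℝ) :
    MeasurableSet (ES ι a b φ) := by
  have h1 : ES ι a b φ = (⋂ i, {z : ι → ℂ | 0 < cr a (z i) b}) ∩
      (⋂ i, ⋂ j, {z : ι → ℂ | i < j → 0 < cr a (z i) (z j)}) ∩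
      (⋂ i, ⋂ j, {z : ι → ℂ | i < j → 0 < cr (z i) (z j) b}) ∩
      (⋂ i, ⋂ j, ⋂ k, {z : ι → ℂ | i < j → j < k → 0 < cr (z i) (z j) (z k)}) ∩
      (⋂ i, {z : ι → ℂ | dq a b φ (z i) < 0}) := by
    ext z
    simp only [ES, mem_setOf_eq, mem_inter_iff, mem_iInter]
    constructor
    · rintro ⟨hc, hd⟩
      exact ⟨⟨⟨⟨hc.ab, hc.a2⟩, hc.b2⟩, hc.p3⟩, hd⟩
    · rintro ⟨⟨⟨⟨h1, h2⟩, h3⟩, h4⟩, h5⟩
      exact ⟨⟨h1, h2, h3, h4⟩, h5⟩
  rw [h1]
  refine ((((MeasurableSet.iInter fun i => ?_).inter ?_).inter ?_).inter ?_).inter ?_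
  · exact (isOpen_lt continuous_const (cr_cont continuous_const (continuous_apply i)
      continuous_const)).measurableSet
  · refine MeasurableSet.iInter fun i => MeasurableSet.iInter fun j => ?_
    by_cases hij : i < j
    · simp only [hij, true_imp_iff]
      exact (isOpen_lt continuous_const (cr_cont continuous_const (continuous_apply i)
        (continuous_apply j))).measurableSet
    · simp only [hij, false_imp_iff, setOf_true, MeasurableSet.univ]
  · refine MeasurableSet.iInter fun i => MeasurableSet.iInter fun j => ?_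
    by_cases hij : i < j
    · simp only [hij, true_imp_iff]
      exact (isOpen_lt continuous_const (cr_cont (continuous_apply i) (continuous_apply j)
        continuous_const)).measurableSet
    · simp only [hij, false_imp_iff, setOf_true, MeasurableSet.univ]
  · refine MeasurableSet.iInter fun i => MeasurableSet.iInter fun j => MeasurableSet.iInter fun k => ?_
    by_cases hij : i < j
    · by_cases hjk : j < k
      · simp only [hij, hjk, true_imp_iff]
        exact (isOpen_lt continuous_const (cr_cont (continuous_apply i) (continuous_apply j)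
          (continuous_apply k))).measurableSet
      · simp only [hjk, false_imp_iff, imp_true_iff, setOf_true, MeasurableSet.univ]
    · simp only [hij, false_imp_iff, setOf_true, MeasurableSet.univ]
  · refine MeasurableSet.iInter fun i => ?_
    exact (isOpen_lt (dq_cont a b φ (continuous_apply i)) continuous_const).measurableSet

theorem null_circle (hB : S_BAL) (hS : S_SAM) (a b w : ℂ) (hab : a ≠ b) (hw : 0 < cr a w b) :
    volume {t : ℂ | dlt a b w t = 0} = 0 := by
  obtain ⟨⟨h1, h2, h3⟩, -, -, h4⟩ := hS a b w hw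
  obtain ⟨c, R, κ, hR, hκ, -, -, h5⟩ := hB a b (al a w b + ps a w b) ⟨by linarith, h3⟩ hab
  have hwb : w ≠ b := by
    rintro rfl
    unfold cr at hw
    linarith
  have hwa : w ≠ a := by
    rintro rfl
    unfold cr at hw
    linarith
  have h6 : {t : ℂ | dlt a b w t = 0} ⊆ Metric.sphere c R := by
    intro t ht
    rw [mem_setOf_eq, h4, h5] at ht
    have h7 : ‖w - b‖ ≠ 0 := norm_ne_zero_iff.2 (sub_ne_zero.2 hwb)
    have h8 : ‖w - a‖ ≠ 0 := norm_ne_zero_iff.2 (sub_ne_zero.2 hwa)
    have h9 : ‖t - c‖ ^ 2 - R ^ 2 = 0 := by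
      rcases mul_eq_zero.1 ht with h | h
      · exact absurd h (mul_ne_zero h7 h8)
      · rcases mul_eq_zero.1 h with h | h
        · exact absurd h hκ.ne'
        · exact h
    rw [Metric.mem_sphere, dist_eq_norm]
    have h10 : ‖t - c‖ ^ 2 = R ^ 2 := by linarith
    exact (pow_left_inj₀ (norm_nonneg _) hR.le two_ne_zero).1 h10
  exact measure_mono_null h6 (Measure.addHaar_sphere _ _ _)

theorem null_B (hB : S_BAL) (hS : S_SAM) (hN : S_NUL) (ι : Type) [Fintype ι] [LinearOrder ι]
    (a b : ℂ) (hab : a ≠ b) (j i : ι) (hij : i ≠ j) :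
    volume {z : ι → ℂ | 0 < cr a (z j) b ∧ dlt a b (z j) (z i) = 0} = 0 := by
  refine hN ι i _ ?_ ?_
  · refine MeasurableSet.inter (s₁ := {z : ι → ℂ | 0 < cr a (z j) b})
      (s₂ := {z : ι → ℂ | dlt a b (z j) (z i) = 0}) ?_ ?_
    · exact (isOpen_lt continuous_const (cr_cont continuous_const (continuous_apply j)
        continuous_const)).measurableSet
    · exact (isClosed_eq (dlt_cont a b (continuous_apply j) (continuous_apply i))
        continuous_const).measurableSet
  · intro z
    have h1 : {t : ℂ | Function.update z i t ∈ {z : ι → ℂ | 0 < cr a (z j) b ∧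
        dlt a b (z j) (z i) = 0}} = {t : ℂ | 0 < cr a (z j) b ∧ dlt a b (z j) t = 0} := by
      ext t
      simp only [mem_setOf_eq, Function.update_self, Function.update_of_ne hij.symm]
    rw [h1]
    by_cases hc : 0 < cr a (z j) b
    · exact measure_mono_null (fun t ht => ht.2) (null_circle hB hS a b (z j) hab hc)
    · have h2 : {t : ℂ | 0 < cr a (z j) b ∧ dlt a b (z j) t = 0} = ∅ := by
        ext t
        simp [hc]
      rw [h2, measure_empty]

theorem un1 (hB : S_BAL) (hS : S_SAM) (hL : S_LEV) (hN : S_NUL) : S_UN1 := by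
  intro ι _ _ _ a b φ hφ hab
  have hmeas : ∀ j : ι, MeasurableSet {z : ι → ℂ | z ∈ ES ι a b φ ∧
      ∀ i, i ≠ j → dlt a b (z j) (z i) < 0} := by
    intro j
    have h1 : {z : ι → ℂ | z ∈ ES ι a b φ ∧ ∀ i, i ≠ j → dlt a b (z j) (z i) < 0} =
        ES ι a b φ ∩ ⋂ i, {z : ι → ℂ | i ≠ j → dlt a b (z j) (z i) < 0} := by
      ext z
      simp only [mem_setOf_eq, mem_inter_iff, mem_iInter]
    rw [h1]
    refine (meas_ES ι a b φ).inter (MeasurableSet.iInter fun i => ?_)
    by_cases hij : i ≠ j
    · simp only [hij, ne_eq, not_false_eq_true, true_imp_iff]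
      exact (isOpen_lt (dlt_cont a b (continuous_apply j) (continuous_apply i))
        continuous_const).measurableSet
    · simp only [hij, false_imp_iff, setOf_true, MeasurableSet.univ]
  have hdisj : Pairwise (Function.onFun Disjoint fun j : ι => {z : ι → ℂ | z ∈ ES ι a b φ ∧
      ∀ i, i ≠ j → dlt a b (z j) (z i) < 0}) := by
    intro j k hjk
    rw [Function.onFun, Set.disjoint_left]
    rintro z ⟨-, h1⟩ ⟨-, h2⟩
    have h3 := h1 k hjk.symm
    have h4 := h2 j hjk
    rw [dlt_swap] at h4
    linarith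
  rw [← tsum_fintype (L := .unconditional ι), ← measure_iUnion hdisj hmeas]
  apply le_antisymm
  · have h1 : ES ι a b φ ⊆ (⋃ j : ι, {z : ι → ℂ | z ∈ ES ι a b φ ∧
        ∀ i, i ≠ j → dlt a b (z j) (z i) < 0}) ∪
        (⋃ j : ι, ⋃ i : {i : ι // i ≠ j}, {z : ι → ℂ | 0 < cr a (z j) b ∧ dlt a b (z j) (z i) = 0}) := by
      intro z hz
      by_cases hb : ∃ j : ι, ∃ i : {i : ι // i ≠ j}, 0 < cr a (z j) b ∧ dlt a b (z j) (z i) = 0
      · right
        simp only [mem_iUnion, mem_setOf_eq]
        exact hb
      · left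
        obtain ⟨j, hj⟩ := Finite.exists_max fun i => al a (z i) b + ps a (z i) b
        rw [mem_iUnion]
        refine ⟨j, hz, fun i hij => ?_⟩
        have hcj := hz.1.ab j
        have hci := hz.1.ab i
        have h2 := (hL a b (z j) hcj).2 (z i) hci
        rcases lt_or_eq_of_le (hj i) with h | h
        · exact h2.1.2 h
        · exact absurd ⟨j, ⟨i, hij⟩, hcj, h2.2.2 h⟩ hb
    refine (measure_mono h1).trans ((measure_union_le _ _).trans ?_)
    have h2 : volume (⋃ j : ι, ⋃ i : {i : ι // i ≠ j}, {z : ι → ℂ | 0 < cr a (z j) b ∧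
        dlt a b (z j) (z i) = 0}) = 0 := by
      refine measure_iUnion_null fun j => measure_iUnion_null fun i => ?_
      exact null_B hB hS hN ι a b hab j i i.2
    rw [h2, add_zero]
  · refine measure_mono (iUnion_subset fun j => ?_)
    intro z hz
    exact hz.1

end Pool.Agent.Helper49.DISC
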